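import Mathlib

/-! # Determinant, signature and genus of knots: definitions and statements of the jobs KS-* -/

set_option autoImplicit false

namespace Pool.Agent.Y466.KS

open Matrix

/-- the signature of a symmetric integer matrix -/
noncomputable def signature {ι : Type} [Fintype ι] [DecidableEq ι] (A : Matrix ι ι ℤ) : ℤ :=
  (sigPos (A.map (Int.cast : ℤ → ℝ)).toQuadraticForm' : ℤ) -
    (sigNeg (A.map (Int.cast : ℤ → ℝ)).toQuadraticForm' : ℤ)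

/-- realised by a Seifert matrix indexed by `ι` -/
def RI (ι : Type) [Fintype ι] [DecidableEq ι] (n : ℕ) (s : ℤ) : Prop :=
  ∃ V : Matrix ι ι ℤ, (V - Vᵀ).det = 1 ∧ |(V + Vᵀ).det| = (n : ℤ) ∧ signature (V + Vᵀ) = s

/-- realised by a `2 g × 2 g` Seifert matrix -/
def R (g n : ℕ) (s : ℤ) : Prop := RI (Fin (2 * g)) n s

/-- KS-GS: the quadratic Gauss sum `∑_{x mod 2q} e^{π i x²/(2q)} = √(2q) e^{π i/4}`. -/
def GS : Prop := ∀ q : ℕ, 0 < q →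
  ∑ x ∈ Finset.range (2 * q), Complex.exp (Real.pi * Complex.I * (x : ℂ) ^ 2 / (2 * q)) =
    (Real.sqrt (2 * q) : ℂ) * Complex.exp (Real.pi * Complex.I / 4)

/-- KS-MIL: an even unimodular integral form which becomes diagonal on a sublattice of finite index
has signature divisible by `8`. -/
def MIL : Prop := ∀ (r : ℕ) (A P : Matrix (Fin r) (Fin r) ℤ) (a : Fin r → ℤ),
  A.IsSymm → (∀ i, Even (A i i)) → |A.det| = 1 → P.det ≠ 0 → (∀ i, a i ≠ 0) →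
  Pᵀ * A * P = diagonal (fun i => 2 * a i) → (8 : ℤ) ∣ ∑ i, (a i).sign

/-- KS-DIAG: diagonalisation over the rationals with cleared denominators, and the signature. -/
def DIAG : Prop := ∀ (r : ℕ) (A : Matrix (Fin r) (Fin r) ℤ),
  A.IsSymm → (∀ i, Even (A i i)) → A.det ≠ 0 →
  ∃ (P : Matrix (Fin r) (Fin r) ℤ) (a : Fin r → ℤ), P.det ≠ 0 ∧ (∀ i, a i ≠ 0) ∧
    Pᵀ * A * P = diagonal (fun i => 2 * a i) ∧ signature A = ∑ i, (a i).sign

/-- KS-SUM: block sums, change of the index set, change of the sign. -/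
def SUM : Prop :=
  (∀ (ι κ : Type) [Fintype ι] [DecidableEq ι] [Fintype κ] [DecidableEq κ] (n m : ℕ) (s t : ℤ),
    n ≠ 0 → m ≠ 0 → RI ι n s → RI κ m t → RI (ι ⊕ κ) (n * m) (s + t)) ∧
  (∀ (ι κ : Type) [Fintype ι] [DecidableEq ι] [Fintype κ] [DecidableEq κ] (_ : ι ≃ κ) (n : ℕ)
    (s : ℤ), RI ι n s → RI κ n s) ∧
  (∀ (g n : ℕ) (s : ℤ), R g n s → R g n (-s))

/-- KS-POS: small positive definite examples: `(n, s, g) = (4 b - 1, 2, 1)`, `(4 b + 1, 0, 1)`,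
`(1, 0, 1)`, `(4 z - 3, 8, 4)`. -/
def SMALL : Prop :=
  (∀ b : ℕ, 1 ≤ b → R 1 (4 * b - 1) 2) ∧ (∀ b : ℕ, R 1 (4 * b + 1) 0) ∧
  (∀ z : ℕ, 1 ≤ z → R 4 (4 * z - 3) 8)

/-- KS-SIX (part 1): the six-dimensional form. -/
def SIXF : Prop := ∀ (a z k : ℤ) (n : ℕ), 1 ≤ a → 0 < n →
  (n : ℤ) = (4 * a - 1) * (8 * z - 3) - 8 * k ^ 2 → R 3 n 6

/-- KS-SIX (part 2): the number theory. -/
def SIXN : Prop := ∀ p : ℕ, p.Prime → p % 4 = 3 →
  ∃ a z k : ℤ, 1 ≤ a ∧ (p : ℤ) = (4 * a - 1) * (8 * z - 3) - 8 * k ^ 2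

/-- KS-NEC: the elementary necessary conditions. -/
def NEC : Prop := ∀ (g : ℕ) (V : Matrix (Fin (2 * g)) (Fin (2 * g)) ℤ), (V - Vᵀ).det = 1 →
  (V + Vᵀ).det % 4 = (-1) ^ g % 4 ∧ (V + Vᵀ).det ≠ 0 ∧
  |signature (V + Vᵀ)| ≤ 2 * g ∧
  (signature (V + Vᵀ) - (|(V + Vᵀ).det| - 1)) % 4 = 0

end Pool.Agent.Y466.KS
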