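import Pool.Agent.Y466.KS.Small

set_option autoImplicit false
set_option maxHeartbeats 4000000

namespace Pool.Agent.Y466.KS

open Matrix

/-- Seifert matrix of the form `E₈` with one changed diagonal entry -/
def V8 (z : ℤ) : Matrix (Fin 8) (Fin 8) ℤ := !![z, 1, 0, 0, 0, 0, 0, 0;
      0, 1, 1, 0, 0, 0, 0, 0;
      0, 0, 1, 1, 0, 0, 0, 0;
      0, 0, 0, 1, 1, 0, 0, 0;
      0, 0, 0, 0, 1, 1, 0, 1;
      0, 0, 0, 0, 0, 1, 1, 0;
      0, 0, 0, 0, 0, 0, 1, 0;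
      0, 0, 0, 0, 0, 0, 0, 1]

/-- `E₈` with one changed diagonal entry -/
def A8 (z : ℤ) : Matrix (Fin 8) (Fin 8) ℤ := !![2 * z, 1, 0, 0, 0, 0, 0, 0;
      1, 2, 1, 0, 0, 0, 0, 0;
      0, 1, 2, 1, 0, 0, 0, 0;
      0, 0, 1, 2, 1, 0, 0, 0;
      0, 0, 0, 1, 2, 1, 0, 1;
      0, 0, 0, 0, 1, 2, 1, 0;
      0, 0, 0, 0, 0, 1, 2, 0;
      0, 0, 0, 0, 1, 0, 0, 2]

/-- the skew matrix -/
def J8 : Matrix (Fin 8) (Fin 8) ℤ := !![0, 1, 0, 0, 0, 0, 0, 0;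
      -1, 0, 1, 0, 0, 0, 0, 0;
      0, -1, 0, 1, 0, 0, 0, 0;
      0, 0, -1, 0, 1, 0, 0, 0;
      0, 0, 0, -1, 0, 1, 0, 1;
      0, 0, 0, 0, -1, 0, 1, 0;
      0, 0, 0, 0, 0, -1, 0, 0;
      0, 0, 0, 0, -1, 0, 0, 0]

lemma V8_add (z : ℤ) : V8 z + (V8 z)ᵀ = A8 z := by
  ext i j
  fin_cases i <;> fin_cases j <;> simp [V8, A8] <;> ring

lemma V8_sub (z : ℤ) : V8 z - (V8 z)ᵀ = J8 := by
  ext i j
  fin_cases i <;> fin_cases j <;> simp [V8, J8]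

lemma det_J8 : J8.det = 1 := by
  simp [J8, Matrix.det_succ_row_zero, Fin.sum_univ_succ, Fin.succAbove, Matrix.submatrix]

lemma det_A8 (z : ℤ) : (A8 z).det = 4 * z - 3 := by
  simp [A8, Matrix.det_succ_row_zero, Fin.sum_univ_succ, Fin.succAbove, Matrix.submatrix]
  ring

lemma pos_A8 (z : ℤ) (hz : 1 ≤ z) (f : Fin 8 → ℝ) (hf : f ≠ 0) :
    0 < ∑ i, ∑ j, f i * (A8 z i j : ℝ) * f j := by
  have key : 60 * ∑ i, ∑ j, f i * (A8 z i j : ℝ) * f j =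
      30 * (2 * f 7 + f 4) ^ 2 + 30 * (2 * f 6 + f 5) ^ 2 + 10 * (3 * f 5 + 2 * f 4) ^ 2 +
      2 * (5 * f 4 + 6 * f 3) ^ 2 + 3 * (4 * f 3 + 5 * f 2) ^ 2 + 5 * (3 * f 2 + 4 * f 1) ^ 2 +
      10 * (2 * f 1 + 3 * f 0) ^ 2 + 30 * (4 * z - 3) * f 0 ^ 2 := by
    simp only [Fin.sum_univ_eight]
    simp [A8]
    ring
  have hzR : (1 : ℝ) ≤ z := by exact_mod_cast hz
  by_contra hcon
  push Not at hcon
  have h1 := mul_nonpos_of_nonneg_of_nonpos (show (0 : ℝ) ≤ 60 by norm_num) hcon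
  rw [key] at h1
  have e1 : 0 ≤ 30 * (2 * f 7 + f 4) ^ 2 := by positivity
  have e2 : 0 ≤ 30 * (2 * f 6 + f 5) ^ 2 := by positivity
  have e3 : 0 ≤ 10 * (3 * f 5 + 2 * f 4) ^ 2 := by positivity
  have e4 : 0 ≤ 2 * (5 * f 4 + 6 * f 3) ^ 2 := by positivity
  have e5 : 0 ≤ 3 * (4 * f 3 + 5 * f 2) ^ 2 := by positivity
  have e6 : 0 ≤ 5 * (3 * f 2 + 4 * f 1) ^ 2 := by positivity
  have e7 : 0 ≤ 10 * (2 * f 1 + 3 * f 0) ^ 2 := by positivity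
  have hz3 : (0 : ℝ) < 4 * z - 3 := by linarith
  have e8 : 0 ≤ 30 * (4 * (z : ℝ) - 3) * f 0 ^ 2 := by positivity
  have f0 : f 0 = 0 := by
    have h : 30 * (4 * (z : ℝ) - 3) * f 0 ^ 2 = 0 := by linarith
    rcases mul_eq_zero.1 h with h | h
    · linarith
    · exact pow_eq_zero_iff (two_ne_zero) |>.1 h
  have f1 : f 1 = 0 := by
    have h' := pow_eq_zero_iff (two_ne_zero) |>.1
      (show (2 * f 1 + 3 * f 0) ^ 2 = 0 by linarith)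
    linarith
  have f2 : f 2 = 0 := by
    have h' := pow_eq_zero_iff (two_ne_zero) |>.1
      (show (3 * f 2 + 4 * f 1) ^ 2 = 0 by linarith)
    linarith
  have f3 : f 3 = 0 := by
    have h' := pow_eq_zero_iff (two_ne_zero) |>.1
      (show (4 * f 3 + 5 * f 2) ^ 2 = 0 by linarith)
    linarith
  have f4 : f 4 = 0 := by
    have h' := pow_eq_zero_iff (two_ne_zero) |>.1
      (show (5 * f 4 + 6 * f 3) ^ 2 = 0 by linarith)
    linarith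
  have f5 : f 5 = 0 := by
    have h' := pow_eq_zero_iff (two_ne_zero) |>.1
      (show (3 * f 5 + 2 * f 4) ^ 2 = 0 by linarith)
    linarith
  have f6 : f 6 = 0 := by
    have h' := pow_eq_zero_iff (two_ne_zero) |>.1
      (show (2 * f 6 + f 5) ^ 2 = 0 by linarith)
    linarith
  have f7 : f 7 = 0 := by
    have h' := pow_eq_zero_iff (two_ne_zero) |>.1
      (show (2 * f 7 + f 4) ^ 2 = 0 by linarith)
    linarith
  apply hf
  funext i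
  fin_cases i <;> simp [f0, f1, f2, f3, f4, f5, f6, f7]

lemma small3 (z : ℕ) (hz : 1 ≤ z) : R 4 (4 * z - 3) 8 := by
  refine ⟨V8 z, ?_, ?_, ?_⟩
  · change (_ : Matrix (Fin 8) (Fin 8) ℤ).det = 1
    rw [V8_sub, det_J8]
  · change |(_ : Matrix (Fin 8) (Fin 8) ℤ).det| = _
    rw [V8_add, det_A8]
    have h1 : (0 : ℤ) < 4 * z - 3 := by omega
    rw [abs_of_pos h1]
    omega
  · change signature (_ : Matrix (Fin 8) (Fin 8) ℤ) = 8
    rw [V8_add, signature_posDef _ (pos_A8 z (by exact_mod_cast hz))]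
    rfl

theorem small : SMALL := ⟨small1, small2, small3⟩

end Pool.Agent.Y466.KS
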