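import Pool.Agent.Y466.KS.Stm

set_option autoImplicit false

namespace Pool.Agent.Y466.KS

open Matrix

theorem sig_of_posDef {ι : Type} [Fintype ι] [DecidableEq ι] (Q : QuadraticForm ℝ (ι → ℝ))
    (hQ : Q.PosDef) : sigPos Q = Fintype.card ι ∧ sigNeg Q = 0 := by
  have h1 : Fintype.card ι ≤ sigPos Q := by
    have := le_sigPos_of_posDef Q (V := ⊤) (by
      intro x hx
      rw [QuadraticMap.restrict_apply]
      exact hQ _ (by simpa using hx))
    simpa using this
  have h2 : sigPos Q ≤ Fintype.card ι := by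
    have := sigPos_le_finrank Q
    simpa using this
  have h3 := QuadraticForm.sigPos_add_sigNeg_add_radical (Q := Q)
  rw [Module.finrank_pi] at h3
  omega

theorem toQF_apply {ι : Type} [Fintype ι] [DecidableEq ι] (A : Matrix ι ι ℝ) (x : ι → ℝ) :
    A.toQuadraticForm' x = ∑ i, ∑ j, x i * A i j * x j := by
  simp [Matrix.toQuadraticForm', Matrix.toLinearMap₂'_apply]
  refine Finset.sum_congr rfl fun i _ => Finset.sum_congr rfl fun j _ => ?_
  ring

theorem signature_posDef {ι : Type} [Fintype ι] [DecidableEq ι] (A : Matrix ι ι ℤ)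
    (h : ∀ x : ι → ℝ, x ≠ 0 → 0 < ∑ i, ∑ j, x i * (A i j : ℝ) * x j) :
    signature A = Fintype.card ι := by
  have hQ : ((A.map (Int.cast : ℤ → ℝ)).toQuadraticForm').PosDef := by
    intro x hx
    rw [toQF_apply]
    simpa using h x hx
  obtain ⟨h1, h2⟩ := sig_of_posDef _ hQ
  unfold signature
  rw [h1, h2]
  simp

theorem sixf : SIXF := by
  intro a z k n ha hn0 hn
  have hA : (!![1, 1, 0, 0, 0, 0; 0, 1, 1, 0, 0, 0; 0, 0, 1, 1, 0, 0; 0, 0, 0, z, k, 0;
      0, 0, 0, 0, a, 1; 0, 0, 0, 0, 0, 1] : Matrix (Fin 6) (Fin 6) ℤ)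
      + (!![1, 1, 0, 0, 0, 0; 0, 1, 1, 0, 0, 0; 0, 0, 1, 1, 0, 0; 0, 0, 0, z, k, 0;
      0, 0, 0, 0, a, 1; 0, 0, 0, 0, 0, 1] : Matrix (Fin 6) (Fin 6) ℤ)ᵀ
      = !![2, 1, 0, 0, 0, 0; 1, 2, 1, 0, 0, 0; 0, 1, 2, 1, 0, 0; 0, 0, 1, 2 * z, k, 0;
      0, 0, 0, k, 2 * a, 1; 0, 0, 0, 0, 1, 2] := by
    ext i j
    fin_cases i <;> fin_cases j <;> simp <;> ring
  have hJ : (!![1, 1, 0, 0, 0, 0; 0, 1, 1, 0, 0, 0; 0, 0, 1, 1, 0, 0; 0, 0, 0, z, k, 0;
      0, 0, 0, 0, a, 1; 0, 0, 0, 0, 0, 1] : Matrix (Fin 6) (Fin 6) ℤ)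
      - (!![1, 1, 0, 0, 0, 0; 0, 1, 1, 0, 0, 0; 0, 0, 1, 1, 0, 0; 0, 0, 0, z, k, 0;
      0, 0, 0, 0, a, 1; 0, 0, 0, 0, 0, 1] : Matrix (Fin 6) (Fin 6) ℤ)ᵀ
      = !![0, 1, 0, 0, 0, 0; -1, 0, 1, 0, 0, 0; 0, -1, 0, 1, 0, 0; 0, 0, -1, 0, k, 0;
      0, 0, 0, -k, 0, 1; 0, 0, 0, 0, -1, 0] := by
    ext i j
    fin_cases i <;> fin_cases j <;> simp
  refine ⟨!![1, 1, 0, 0, 0, 0; 0, 1, 1, 0, 0, 0; 0, 0, 1, 1, 0, 0; 0, 0, 0, z, k, 0;
      0, 0, 0, 0, a, 1; 0, 0, 0, 0, 0, 1], ?_, ?_, ?_⟩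
  · change (_ : Matrix (Fin 6) (Fin 6) ℤ).det = 1
    rw [hJ]
    simp [Matrix.det_succ_row_zero, Fin.sum_univ_succ, Fin.succAbove, Matrix.submatrix]
  · change |(_ : Matrix (Fin 6) (Fin 6) ℤ).det| = (n : ℤ)
    rw [hA]
    have hdet : (!![2, 1, 0, 0, 0, 0; 1, 2, 1, 0, 0, 0; 0, 1, 2, 1, 0, 0; 0, 0, 1, 2 * z, k, 0;
      0, 0, 0, k, 2 * a, 1; 0, 0, 0, 0, 1, 2] : Matrix (Fin 6) (Fin 6) ℤ).det = n := by
      rw [hn]
      simp [Matrix.det_succ_row_zero, Fin.sum_univ_succ, Fin.succAbove, Matrix.submatrix]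
      ring
    rw [hdet, abs_of_pos (by exact_mod_cast hn0)]
  · change signature (_ : Matrix (Fin 6) (Fin 6) ℤ) = 6
    rw [hA, signature_posDef]
    · rfl
    · intro f hf
      simp only [Fin.sum_univ_six]
      simp
      set q : ℝ := 4 * a - 1 with hq
      have hq0 : 0 < q := by
        have : (1 : ℝ) ≤ a := by exact_mod_cast ha
        rw [hq]; linarith
      have hnR : (n : ℝ) = q * (8 * z - 3) - 8 * k ^ 2 := by
        have := congrArg (Int.cast : ℤ → ℝ) hn
        push_cast at this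
        rw [this, hq]
      have hn0R : (0 : ℝ) < n := by exact_mod_cast hn0
      by_contra hcon
      push Not at hcon
      have h1 : 6 * q * (2 * f 0 + f 1) ^ 2 + 2 * q * (3 * f 1 + 2 * f 2) ^ 2
          + q * (4 * f 2 + 3 * f 3) ^ 2 + 6 * q * (2 * f 5 + f 4) ^ 2
          + 6 * (q * f 4 + 2 * k * f 3) ^ 2 + 3 * n * f 3 ^ 2 ≤ 0 := by
        have h2 := mul_nonpos_of_nonneg_of_nonpos (show (0 : ℝ) ≤ 12 * q by positivity) hcon
        refine le_of_eq_of_le ?_ h2
        rw [hnR, hq]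
        ring
      have e1 : 0 ≤ 6 * q * (2 * f 0 + f 1) ^ 2 := by positivity
      have e2 : 0 ≤ 2 * q * (3 * f 1 + 2 * f 2) ^ 2 := by positivity
      have e3 : 0 ≤ q * (4 * f 2 + 3 * f 3) ^ 2 := by positivity
      have e4 : 0 ≤ 6 * q * (2 * f 5 + f 4) ^ 2 := by positivity
      have e5 : 0 ≤ 6 * (q * f 4 + 2 * k * f 3) ^ 2 := by positivity
      have e6 : 0 ≤ 3 * n * f 3 ^ 2 := by positivity
      have f3 : f 3 = 0 := by
        have h : 3 * n * f 3 ^ 2 = 0 := by linarith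
        rcases mul_eq_zero.1 h with h | h
        · exact absurd h (by positivity)
        · exact pow_eq_zero_iff (two_ne_zero) |>.1 h
      have f4 : f 4 = 0 := by
        have h : (q * f 4 + 2 * k * f 3) ^ 2 = 0 := by linarith
        have h' := pow_eq_zero_iff (two_ne_zero) |>.1 h
        rw [f3] at h'
        have h'' : q * f 4 = 0 := by linarith
        rcases mul_eq_zero.1 h'' with h | h
        · exact absurd h hq0.ne'
        · exact h
      have f5 : f 5 = 0 := by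
        have h : 6 * q * (2 * f 5 + f 4) ^ 2 = 0 := by linarith
        rcases mul_eq_zero.1 h with h | h
        · exact absurd h (by positivity)
        · have h' := pow_eq_zero_iff (two_ne_zero) |>.1 h
          rw [f4] at h'
          linarith
      have f2 : f 2 = 0 := by
        have h : q * (4 * f 2 + 3 * f 3) ^ 2 = 0 := by linarith
        rcases mul_eq_zero.1 h with h | h
        · exact absurd h hq0.ne'
        · have h' := pow_eq_zero_iff (two_ne_zero) |>.1 h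
          rw [f3] at h'
          linarith
      have f1 : f 1 = 0 := by
        have h : 2 * q * (3 * f 1 + 2 * f 2) ^ 2 = 0 := by linarith
        rcases mul_eq_zero.1 h with h | h
        · exact absurd h (by positivity)
        · have h' := pow_eq_zero_iff (two_ne_zero) |>.1 h
          rw [f2] at h'
          linarith
      have f0 : f 0 = 0 := by
        have h : 6 * q * (2 * f 0 + f 1) ^ 2 = 0 := by linarith
        rcases mul_eq_zero.1 h with h | h
        · exact absurd h (by positivity)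
        · have h' := pow_eq_zero_iff (two_ne_zero) |>.1 h
          rw [f1] at h'
          linarith
      apply hf
      funext i
      fin_cases i <;> simp [f0, f1, f2, f3, f4, f5]

end Pool.Agent.Y466.KS
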