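import Pool.Agent.Y466.KS.Stm

set_option autoImplicit false
set_option maxHeartbeats 4000000

namespace Pool.Agent.Y466.KS

/-- an auxiliary prime, by Dirichlet's theorem and quadratic reciprocity -/
lemma exists_q (p : ℕ) (hp : p.Prime) (hp4 : p % 4 = 3) :
    ∃ q : ℕ, q.Prime ∧ ((p % 8 = 3 ∧ q % 8 = 7) ∨ (p % 8 = 7 ∧ q % 8 = 3)) ∧
      ∃ k : ℕ, q ∣ p + 8 * k ^ 2 := by
  have hpF : Fact p.Prime := ⟨hp⟩
  have hp2 : p ≠ 2 := by rintro rfl; simp at hp4
  have hcop : Nat.Coprime 8 p := by
    rw [Nat.coprime_comm]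
    have : Nat.Coprime p (2 ^ 3) :=
      Nat.Coprime.pow_right 3 ((Nat.coprime_primes hp Nat.prime_two).mpr hp2)
    simpa using this
  -- the prime
  have step : ∀ (u v : ℕ), u % 2 = 1 → Nat.Coprime v p →
      ∃ q : ℕ, q > p ∧ q.Prime ∧ q % 8 = u % 8 ∧ q ≡ v [MOD p] := by
    intro u v hu hv
    obtain ⟨m, hm8, hmp⟩ := Nat.chineseRemainder hcop u v
    have hmcop : m.Coprime (8 * p) := by
      apply Nat.Coprime.mul_right
      · have h2 : Nat.Coprime m (2 ^ 3) := by
          apply Nat.Coprime.pow_right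
          rw [Nat.coprime_two_right, Nat.odd_iff]
          have : m % 8 = u % 8 := hm8
          omega
        simpa using h2
      · exact (hmp.gcd_eq).trans hv
    obtain ⟨q, hqgt, hq, hqm⟩ := Nat.forall_exists_prime_gt_and_modEq p (q := 8 * p) (a := m)
      (by have := hp.pos; omega) hmcop
    refine ⟨q, hqgt, hq, ?_, ?_⟩
    · have h1 : q ≡ m [MOD 8] := hqm.of_dvd (Dvd.intro _ rfl)
      exact h1.trans hm8
    · exact (hqm.of_dvd (Dvd.intro_left _ rfl)).trans hmp
  have fin : ∀ q : ℕ, q > p → q.Prime → q % 4 = 3 →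
      (∀ [Fact q.Prime], legendreSym q 2 * legendreSym p q = 1) →
      ∃ k : ℕ, q ∣ p + 8 * k ^ 2 := by
    intro q hqp hq hq4 hL
    have hqF : Fact q.Prime := ⟨hq⟩
    have hq2 : q ≠ 2 := by rintro rfl; simp at hq4
    have hL := hL
    have h1 : legendreSym q (-1) = -1 := by
      rw [legendreSym.at_neg_one hq2, ZMod.χ₄_nat_three_mod_four hq4]
    have h2 : legendreSym q p = -legendreSym p q :=
      legendreSym.quadratic_reciprocity_three_mod_four hp4 hq4
    have h3 : legendreSym q (-1 * 2 * p) = 1 := by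
      rw [legendreSym.mul, legendreSym.mul, h1, h2]
      linear_combination hL
    have hp0 : ((p : ℕ) : ZMod q) ≠ 0 := by
      intro h
      rw [ZMod.natCast_eq_zero_iff] at h
      have := Nat.le_of_dvd hp.pos h
      omega
    have h20 : ((2 : ℕ) : ZMod q) ≠ 0 := by
      intro h
      rw [ZMod.natCast_eq_zero_iff] at h
      have := Nat.le_of_dvd (by norm_num) h
      have := hq.two_le
      omega
    have h0 : ((-1 * 2 * (p : ℤ) : ℤ) : ZMod q) ≠ 0 := by
      push_cast
      have h20' : (2 : ZMod q) ≠ 0 := by simpa using h20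
      intro h
      have : (2 : ZMod q) * p = 0 := by linear_combination -h
      rcases mul_eq_zero.1 this with h | h
      · exact h20' h
      · exact hp0 h
    obtain ⟨r, hr⟩ := (legendreSym.eq_one_iff q h0).1 h3
    have h20' : (2 : ZMod q) ≠ 0 := by simpa using h20
    refine ⟨(r / 4).val, ?_⟩
    rw [← ZMod.natCast_eq_zero_iff]
    push_cast
    rw [ZMod.natCast_zmod_val]
    push_cast at hr
    have h40 : (4 : ZMod q) ≠ 0 := by
      have : (4 : ZMod q) = 2 * 2 := by norm_num
      rw [this]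
      exact mul_ne_zero h20' h20'
    field_simp
    have e : (4 : ZMod q) ^ 2 = 2 * 8 := by norm_num
    linear_combination (p : ZMod q) * e - 8 * hr
  have hcase : p % 8 = 3 ∨ p % 8 = 7 := by omega
  rcases hcase with h8 | h8
  · obtain ⟨q, hqp, hq, hq8, hqv⟩ := step 7 1 (by norm_num) (Nat.coprime_one_left p)
    refine ⟨q, hq, Or.inl ⟨h8, by omega⟩, fin q hqp hq (by omega) ?_⟩
    intro hqF
    have hq2 : q ≠ 2 := by rintro rfl; omega
    have e1 : legendreSym q 2 = 1 := by
      rw [legendreSym.at_two hq2, ZMod.χ₈_nat_eq_if_mod_eight]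
      have : q % 8 = 7 := by omega
      rw [this]
      norm_num
      omega
    have e2 : legendreSym p q = 1 := by
      have h : ((q : ℤ) : ZMod p) = ((1 : ℤ) : ZMod p) := by
        have := (ZMod.natCast_eq_natCast_iff _ _ _).2 hqv
        push_cast at this ⊢
        exact this
      have : legendreSym p q = legendreSym p 1 := by
        unfold legendreSym
        rw [h]
      rw [this, legendreSym.at_one]
    rw [e1, e2]
    norm_num
  · have hcv : Nat.Coprime (p - 1) p := by
      have h1 : Nat.Coprime (p - 1) ((p - 1) + 1) := by simp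
      have e : (p - 1) + 1 = p := by have := hp.pos; omega
      rwa [e] at h1
    obtain ⟨q, hqp, hq, hq8, hqv⟩ := step 3 (p - 1) (by norm_num) hcv
    refine ⟨q, hq, Or.inr ⟨h8, by omega⟩, fin q hqp hq (by omega) ?_⟩
    intro hqF
    have hq2 : q ≠ 2 := by rintro rfl; omega
    have e1 : legendreSym q 2 = -1 := by
      rw [legendreSym.at_two hq2, ZMod.χ₈_nat_eq_if_mod_eight]
      have : q % 8 = 3 := by omega
      rw [this]
      norm_num
      omega
    have e2 : legendreSym p q = -1 := by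
      have h : ((q : ℤ) : ZMod p) = ((-1 : ℤ) : ZMod p) := by
        have := (ZMod.natCast_eq_natCast_iff _ _ _).2 hqv
        push_cast [Nat.cast_sub hp.one_lt.le] at this ⊢
        rw [this]
        simp
      have : legendreSym p q = legendreSym p (-1) := by
        unfold legendreSym
        rw [h]
      rw [this, legendreSym.at_neg_one hp2, ZMod.χ₄_nat_three_mod_four hp4]
    rw [e1, e2]
    norm_num

theorem sixn : SIXN := by
  intro p hp hp4
  obtain ⟨q, hq, hpq, k, w, hw⟩ := exists_q p hp hp4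
  have hw8 : w % 8 = 5 := by
    have h1 : (q % 8) * (w % 8) % 8 = p % 8 := by
      rw [← Nat.mul_mod, ← hw]
      omega
    have h2 : w % 8 < 8 := Nat.mod_lt _ (by norm_num)
    rcases hpq with ⟨h3, h4⟩ | ⟨h3, h4⟩ <;> rw [h3, h4] at h1 <;> omega
  refine ⟨((q + 1) / 4 : ℕ), ((w + 3) / 8 : ℕ), k, ?_, ?_⟩
  · have : 1 ≤ (q + 1) / 4 := by omega
    exact_mod_cast this
  · have e1 : 4 * ((((q + 1) / 4 : ℕ) : ℤ)) - 1 = q := by omega
    have e2 : 8 * ((((w + 3) / 8 : ℕ) : ℤ)) - 3 = w := by omega
    rw [e1, e2]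
    have := congrArg (Nat.cast : ℕ → ℤ) hw
    push_cast at this
    linarith

end Pool.Agent.Y466.KS
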