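import Pool.Agent.Y466.KS.SixF

set_option autoImplicit false
set_option maxHeartbeats 4000000

namespace Pool.Agent.Y466.KS

open Matrix

lemma le_sigPos_of_map {M W : Type*} [AddCommGroup M] [Module ℝ M] [FiniteDimensional ℝ M]
    [AddCommGroup W] [Module ℝ W] [FiniteDimensional ℝ W] (Q : QuadraticForm ℝ M)
    (φ : W →ₗ[ℝ] M) (h : ∀ w, w ≠ 0 → 0 < Q (φ w)) : Module.finrank ℝ W ≤ sigPos Q := by
  have hinj : Function.Injective φ := by
    rw [injective_iff_map_eq_zero]
    intro w hw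
    by_contra hne
    have := h w hne
    rw [hw, QuadraticMap.map_zero] at this
    exact lt_irrefl _ this
  rw [← LinearMap.finrank_range_of_inj hinj]
  refine le_sigPos_of_posDef Q ?_
  rintro ⟨x, w, rfl⟩ hx
  rw [QuadraticMap.restrict_apply]
  refine h w ?_
  rintro rfl
  apply hx
  ext1
  simp

/-- the real quadratic form of an integer matrix -/
noncomputable abbrev QF {ι : Type} [Fintype ι] [DecidableEq ι] (A : Matrix ι ι ℤ) :
    QuadraticForm ℝ (ι → ℝ) := (A.map (Int.cast : ℤ → ℝ)).toQuadraticForm'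

lemma QF_apply {ι : Type} [Fintype ι] [DecidableEq ι] (A : Matrix ι ι ℤ) (x : ι → ℝ) :
    QF A x = ∑ i, ∑ j, x i * (A i j : ℝ) * x j := by
  rw [toQF_apply]
  rfl

lemma QF_neg {ι : Type} [Fintype ι] [DecidableEq ι] (A : Matrix ι ι ℤ) : QF (-A) = -QF A := by
  ext x
  rw [_root_.neg_apply, QF_apply, QF_apply, ← Finset.sum_neg_distrib]
  refine Finset.sum_congr rfl fun i _ => ?_
  rw [← Finset.sum_neg_distrib]
  refine Finset.sum_congr rfl fun j _ => ?_
  simp

lemma sig_neg {ι : Type} [Fintype ι] [DecidableEq ι] (A : Matrix ι ι ℤ) :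
    signature (-A) = -signature A := by
  have h := QF_neg A
  unfold signature
  unfold QF at h
  rw [h, sigPos_neg, sigNeg_neg]
  ring

lemma rank_eq {ι : Type} [Fintype ι] [DecidableEq ι] (A : Matrix ι ι ℤ) (hs : A.IsSymm)
    (h0 : A.det ≠ 0) : sigPos (QF A) + sigNeg (QF A) = Fintype.card ι := by
  have h3 := QuadraticForm.sigPos_add_sigNeg_add_radical (Q := QF A)
  rw [Module.finrank_pi] at h3
  have hrad : (QF A).radical = ⊥ := by
    rw [eq_bot_iff]
    rintro x ⟨hx1, hx2⟩
    have hdet : (A.map (Int.cast : ℤ → ℝ)).det ≠ 0 := by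
      have : (A.map (Int.cast : ℤ → ℝ)).det = ((A.det : ℤ) : ℝ) := by
        have h7 := RingHom.map_det (Int.castRingHom ℝ) A
        rw [RingHom.mapMatrix_apply] at h7
        exact h7.symm
      rw [this]
      exact_mod_cast h0
    refine (Submodule.mem_bot ℝ).2 (eq_zero_of_vecMul_eq_zero hdet ?_)
    funext j
    have h4 := LinearMap.congr_fun hx2 (Pi.single j 1)
    rw [QuadraticMap.polarBilin_apply_apply, LinearMap.zero_apply, QuadraticMap.polar,
      QF_apply, QF_apply, QF_apply] at h4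
    have e1 : ∑ i, ∑ k, (x + Pi.single j (1 : ℝ) : ι → ℝ) i * (A i k : ℝ) *
        (x + Pi.single j (1 : ℝ) : ι → ℝ) k =
        ∑ i, ∑ k, x i * (A i k : ℝ) * x k + ∑ i, ∑ k, (Pi.single j (1 : ℝ) : ι → ℝ) i *
          (A i k : ℝ) * (Pi.single j (1 : ℝ) : ι → ℝ) k + (∑ i, x i * (A i j : ℝ) +
          ∑ k, (A j k : ℝ) * x k) := by
      have e2 : ∑ i, x i * (A i j : ℝ) = ∑ i, ∑ k, x i * (A i k : ℝ) *
          (Pi.single j (1 : ℝ) : ι → ℝ) k := by
        refine Finset.sum_congr rfl fun i _ => ?_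
        rw [Finset.sum_eq_single j]
        · simp
        · intro k _ hk
          rw [Pi.single_eq_of_ne hk, mul_zero]
        · simp
      have e3 : ∑ k, (A j k : ℝ) * x k = ∑ i, ∑ k, (Pi.single j (1 : ℝ) : ι → ℝ) i *
          (A i k : ℝ) * x k := by
        symm
        rw [Finset.sum_eq_single j]
        · simp
        · intro i _ hi
          refine Finset.sum_eq_zero fun k _ => ?_
          rw [Pi.single_eq_of_ne hi, zero_mul, zero_mul]
        · simp
      rw [e2, e3, ← Finset.sum_add_distrib, ← Finset.sum_add_distrib, ← Finset.sum_add_distrib]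
      refine Finset.sum_congr rfl fun i _ => ?_
      rw [← Finset.sum_add_distrib, ← Finset.sum_add_distrib, ← Finset.sum_add_distrib]
      refine Finset.sum_congr rfl fun k _ => ?_
      rw [Pi.add_apply, Pi.add_apply]
      ring
    rw [e1] at h4
    have e4 : ∑ k, (A j k : ℝ) * x k = ∑ i, x i * (A i j : ℝ) := by
      refine Finset.sum_congr rfl fun k _ => ?_
      have : A j k = A k j := by
        have := congrFun (congrFun hs k) j
        simpa using this
      rw [this]
      ring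
    rw [e4] at h4
    have h5 : ∑ i, x i * (A i j : ℝ) = 0 := by linarith
    exact h5
  rw [hrad, finrank_bot] at h3
  exact h3

lemma sig_blocks {ι κ : Type} [Fintype ι] [DecidableEq ι] [Fintype κ] [DecidableEq κ]
    (A : Matrix ι ι ℤ) (B : Matrix κ κ ℤ) (hA : A.IsSymm) (hB : B.IsSymm) (hA0 : A.det ≠ 0)
    (hB0 : B.det ≠ 0) : signature (fromBlocks A 0 0 B) = signature A + signature B := by
  have key : ∀ (A : Matrix ι ι ℤ) (B : Matrix κ κ ℤ),
      sigPos (QF A) + sigPos (QF B) ≤ sigPos (QF (fromBlocks A 0 0 B)) := by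
    intro A B
    obtain ⟨V, hV1, hV2⟩ := exists_finrank_eq_sigPos_and_posDef (QF A)
    obtain ⟨W, hW1, hW2⟩ := exists_finrank_eq_sigPos_and_posDef (QF B)
    rw [← hV1, ← hW1, ← Module.finrank_prod]
    let φ : (V × W) →ₗ[ℝ] (ι ⊕ κ → ℝ) :=
      { toFun := fun p => Sum.elim (p.1 : ι → ℝ) (p.2 : κ → ℝ)
        map_add' := by
          intro p q
          funext i
          rcases i with i | i <;> simp
        map_smul' := by
          intro c p
          funext i
          rcases i with i | i <;> simp }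
    refine le_sigPos_of_map _ φ ?_
    rintro ⟨v, w⟩ hvw
    have e : QF (fromBlocks A 0 0 B) (φ (v, w)) = QF A v + QF B w := by
      rw [QF_apply, QF_apply, QF_apply]
      simp only [Fintype.sum_sum_type]
      simp [φ]
    rw [e]
    by_cases hv : v = 0
    · have hw : w ≠ 0 := by
        rintro rfl
        exact hvw (by rw [hv]; rfl)
      have h1 := hW2 w hw
      rw [QuadraticMap.restrict_apply] at h1
      rw [hv]
      simpa using h1
    · have h1 := hV2 v hv
      rw [QuadraticMap.restrict_apply] at h1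
      by_cases hw : w = 0
      · rw [hw]
        simpa using h1
      · have h2 := hW2 w hw
        rw [QuadraticMap.restrict_apply] at h2
        exact add_pos h1 h2
  have h1 := key A B
  have h2 := key (-A) (-B)
  have e1 : fromBlocks (-A) 0 0 (-B) = -fromBlocks A 0 0 B := by
    rw [fromBlocks_neg]
    simp
  rw [e1, QF_neg, QF_neg, QF_neg, sigPos_neg, sigPos_neg, sigPos_neg] at h2
  have h3 := rank_eq A hA hA0
  have h4 := rank_eq B hB hB0
  have h5 := rank_eq (fromBlocks A 0 0 B) (by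
    unfold IsSymm
    rw [fromBlocks_transpose, hA, hB]
    simp) (by
    rw [det_fromBlocks_zero₂₁]
    exact mul_ne_zero hA0 hB0)
  rw [Fintype.card_sum] at h5
  change (sigPos (QF (fromBlocks A 0 0 B)) : ℤ) - (sigNeg (QF (fromBlocks A 0 0 B)) : ℤ) =
    ((sigPos (QF A) : ℤ) - (sigNeg (QF A) : ℤ)) + ((sigPos (QF B) : ℤ) - (sigNeg (QF B) : ℤ))
  omega

lemma isSymm_add {ι : Type} (V : Matrix ι ι ℤ) : (V + Vᵀ).IsSymm := by
  unfold IsSymm
  rw [transpose_add, transpose_transpose, add_comm]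

lemma sum1 (ι κ : Type) [Fintype ι] [DecidableEq ι] [Fintype κ] [DecidableEq κ] (n m : ℕ)
    (s t : ℤ) (hn : n ≠ 0) (hm : m ≠ 0) (h1 : RI ι n s) (h2 : RI κ m t) :
    RI (ι ⊕ κ) (n * m) (s + t) := by
  obtain ⟨V, a1, a2, a3⟩ := h1
  obtain ⟨W, b1, b2, b3⟩ := h2
  have hp : fromBlocks V 0 0 W + (fromBlocks V 0 0 W)ᵀ = fromBlocks (V + Vᵀ) 0 0 (W + Wᵀ) := by
    rw [fromBlocks_transpose, fromBlocks_add]
    simp
  have hm' : fromBlocks V 0 0 W - (fromBlocks V 0 0 W)ᵀ = fromBlocks (V - Vᵀ) 0 0 (W - Wᵀ) := by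
    rw [fromBlocks_transpose, sub_eq_add_neg, fromBlocks_neg, fromBlocks_add]
    simp [sub_eq_add_neg]
  refine ⟨fromBlocks V 0 0 W, ?_, ?_, ?_⟩
  · rw [hm', det_fromBlocks_zero₂₁, a1, b1, one_mul]
  · rw [hp, det_fromBlocks_zero₂₁, abs_mul, a2, b2]
    push_cast
    rfl
  · rw [hp, sig_blocks _ _ (isSymm_add V) (isSymm_add W), a3, b3]
    · intro h
      rw [h] at a2
      simp at a2
      exact hn (by exact_mod_cast a2.symm)
    · intro h
      rw [h] at b2
      simp at b2
      exact hm (by exact_mod_cast b2.symm)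

lemma sig_reindex {ι κ : Type} [Fintype ι] [DecidableEq ι] [Fintype κ] [DecidableEq κ]
    (e : ι ≃ κ) (A : Matrix ι ι ℤ) : signature (reindex e e A) = signature A := by
  have h : QuadraticMap.Equivalent (QF (reindex e e A)) (QF A) := by
    refine ⟨{ LinearEquiv.funCongrLeft ℝ ℝ e with map_app' := ?_ }⟩
    intro f
    change QF A (fun i => f (e i)) = QF (reindex e e A) f
    rw [QF_apply, QF_apply]
    refine Fintype.sum_equiv e _ _ fun i => ?_
    refine Fintype.sum_equiv e _ _ fun j => ?_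
    simp
  change (sigPos (QF (reindex e e A)) : ℤ) - (sigNeg (QF (reindex e e A)) : ℤ) =
    (sigPos (QF A) : ℤ) - (sigNeg (QF A) : ℤ)
  rw [h.sigPos_eq, h.sigNeg_eq]

theorem sum : SUM := by
  refine ⟨sum1, ?_, ?_⟩
  · intro ι κ _ _ _ _ e n s h
    obtain ⟨V, a1, a2, a3⟩ := h
    have hp : reindex e e V + (reindex e e V)ᵀ = reindex e e (V + Vᵀ) := by
      ext i j
      simp
    have hm : reindex e e V - (reindex e e V)ᵀ = reindex e e (V - Vᵀ) := by
      ext i j
      simp
    refine ⟨reindex e e V, ?_, ?_, ?_⟩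
    · rw [hm, det_reindex_self, a1]
    · rw [hp, det_reindex_self, a2]
    · rw [hp, sig_reindex, a3]
  · rintro g n s ⟨V, a1, a2, a3⟩
    have hev : ∀ M : Matrix (Fin (2 * g)) (Fin (2 * g)) ℤ, (-M).det = M.det := by
      intro M
      rw [det_neg, Fintype.card_fin, pow_mul]
      simp
    have hp : -V + (-V)ᵀ = -(V + Vᵀ) := by
      rw [transpose_neg]
      abel
    have hm : -V - (-V)ᵀ = -(V - Vᵀ) := by
      rw [transpose_neg]
      abel
    refine ⟨-V, ?_, ?_, ?_⟩
    · rw [hm, hev, a1]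
    · rw [hp, hev, a2]
    · rw [hp, sig_neg, a3]

end Pool.Agent.Y466.KS
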