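import Pool.Agent.Y466.KS.Stm
import Pool.Agent.Results.MP_06cdda_gt.SeifertForm

/-! # Determinant, signature and genus of knots: the assembly -/

set_option autoImplicit false

namespace Pool.Agent.Y466.KS

open Matrix

lemma R_add (h : SUM) {g n g' n' : ℕ} {s s' : ℤ} (hn : n ≠ 0) (hn' : n' ≠ 0) (h1 : R g n s)
    (h2 : R g' n' s') : R (g + g') (n * n') (s + s') := by
  have h3 := h.1 (Fin (2 * g)) (Fin (2 * g')) n n' s s' hn hn' h1 h2
  exact h.2.1 _ _ (finSumFinEquiv.trans (finCongr (by ring))) _ _ h3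

lemma R_zero : R 0 1 0 := by
  refine ⟨0, ?_, ?_, ?_⟩
  · simp [Matrix.det_isEmpty]
  · simp [Matrix.det_isEmpty]
  · have h1 : sigPos (((0 + 0ᵀ : Matrix (Fin (2 * 0)) (Fin (2 * 0)) ℤ)).map
        (Int.cast : ℤ → ℝ)).toQuadraticForm' ≤ 0 := by
      refine (sigPos_le_finrank _).trans ?_
      simp
    have h2 : sigPos (-(((0 + 0ᵀ : Matrix (Fin (2 * 0)) (Fin (2 * 0)) ℤ)).map
        (Int.cast : ℤ → ℝ)).toQuadraticForm') ≤ 0 := by
      refine (sigPos_le_finrank _).trans ?_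
      simp
    rw [sigPos_neg] at h2
    unfold signature
    rw [Nat.le_zero.1 h1, Nat.le_zero.1 h2]
    rfl

lemma R_H (hs : SUM) (hm : SMALL) : ∀ j : ℕ, R j 1 0
  | 0 => R_zero
  | j + 1 => by
    have h1 := R_add hs one_ne_zero (by norm_num) (R_H hs hm j) (hm.2.1 0)
    simpa using h1

lemma R_E (hs : SUM) (hm : SMALL) : ∀ l : ℕ, R (4 * l) 1 (8 * l)
  | 0 => by simpa using R_zero
  | l + 1 => by
    have h1 := R_add hs one_ne_zero (by norm_num) (R_E hs hm l) (hm.2.2 1 le_rfl)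
    have e1 : 4 * l + 4 = 4 * (l + 1) := by ring
    have e2 : (8 * (l : ℤ) + 8) = 8 * ((l + 1 : ℕ) : ℤ) := by push_cast; ring
    rw [e1, e2] at h1
    simpa using h1

/-- adding copies of `E₈` and of the hyperbolic plane -/
lemma R_stab (hs : SUM) (hm : SMALL) {g₀ n : ℕ} {s₀ : ℤ} (hn : n ≠ 0) (h : R g₀ n s₀) (l g : ℕ)
    (hg : g₀ + 4 * l ≤ g) : R g n (s₀ + 8 * l) := by
  have h1 := R_add hs hn one_ne_zero h (R_E hs hm l)
  have h2 := R_add hs (by simpa using hn) one_ne_zero h1 (R_H hs hm (g - (g₀ + 4 * l)))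
  have e1 : g₀ + 4 * l + (g - (g₀ + 4 * l)) = g := by omega
  rw [e1] at h2
  simpa using h2

lemma two (hm : SMALL) {n : ℕ} (hn : n % 4 = 3) : R 1 n 2 := by
  have h1 := hm.1 ((n + 1) / 4) (by omega)
  have e : 4 * ((n + 1) / 4) - 1 = n := by omega
  rwa [e] at h1

lemma zero (hm : SMALL) {n : ℕ} (hn : n % 4 = 1) : R 1 n 0 := by
  have h1 := hm.2.1 ((n - 1) / 4)
  have e : 4 * ((n - 1) / 4) + 1 = n := by omega
  rwa [e] at h1

lemma eight (hm : SMALL) {n : ℕ} (hn : n % 4 = 1) : R 4 n 8 := by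
  have h1 := hm.2.2 ((n + 3) / 4) (by omega)
  have e : 4 * ((n + 3) / 4) - 3 = n := by omega
  rwa [e] at h1

lemma four {n : ℕ} (hn : n % 4 = 1) (h1 : n ≠ 1) : R 2 n 4 := by
  obtain ⟨V, h2, h3, h4⟩ := Pool.Agent.Results.MP_06cdda_gt.SeifertForm.result ((n - 1) / 4)
    (by omega)
  refine ⟨V, h2, ?_, h4⟩
  have h5 : 4 * ((((n - 1) / 4 : ℕ) : ℤ)) + 1 = (n : ℤ) := by omega
  rw [← h5]
  exact h3

lemma six (hs : SUM) (hm : SMALL) (h1 : SIXF) (h2 : SIXN) {n : ℕ} (hn : n % 4 = 3) : R 3 n 6 := by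
  by_cases hp : n.Prime
  · obtain ⟨a, z, k, h3, h4⟩ := h2 n hp hn
    exact h1 a z k n h3 hp.pos h4
  · -- a divisor `d ≡ 1` modulo `4`, `d ≠ 1`
    have key : ∃ d e : ℕ, n = d * e ∧ d % 4 = 1 ∧ d ≠ 1 ∧ e % 4 = 3 := by
      obtain ⟨p, hp1, m, rfl⟩ := Nat.exists_prime_and_dvd (n := n) (by omega)
      have hm1 : m ≠ 1 := by
        rintro rfl
        exact hp (by simpa using hp1)
      have hmod : (p % 4) * (m % 4) % 4 = 3 := by rw [← Nat.mul_mod]; exact hn
      have hp4 : p % 4 < 4 := Nat.mod_lt _ (by norm_num)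
      have hm4 : m % 4 < 4 := Nat.mod_lt _ (by norm_num)
      have hcase : (p % 4 = 1 ∧ m % 4 = 3) ∨ (p % 4 = 3 ∧ m % 4 = 1) := by
        generalize p % 4 = x at *
        generalize m % 4 = y at *
        interval_cases x <;> interval_cases y <;> omega
      rcases hcase with ⟨h3, h4⟩ | ⟨h3, h4⟩
      · exact ⟨p, m, rfl, h3, hp1.one_lt.ne', h4⟩
      · exact ⟨m, p, mul_comm _ _, h4, hm1, h3⟩
    obtain ⟨d, e, rfl, hd, hd1, he⟩ := key
    have h3 := R_add hs (by omega) (by omega) (four hd hd1) (two hm he)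
    exact h3

lemma suff (hs : SUM) (hm : SMALL) (h1 : SIXF) (h2 : SIXN) {g n : ℕ} {s : ℤ} (hs0 : 0 ≤ s)
    (hodd : n % 2 = 1) (hg : s ≤ 2 * g) (hmod : (s - ((n : ℤ) - 1)) % 4 = 0)
    (hone : n = 1 → 8 ∣ s) (hg0 : g = 0 → n = 1) : R g n s := by
  have hn0 : n ≠ 0 := by omega
  obtain ⟨l, t, hl, ht⟩ : ∃ l t : ℕ, s = t + 8 * l ∧ t < 8 := by
    refine ⟨(s / 8).toNat, (s % 8).toNat, by omega, by omega⟩
  rw [hl]
  have ht2 : t = 0 ∨ t = 2 ∨ t = 4 ∨ t = 6 := by omega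
  rcases ht2 with rfl | rfl | rfl | rfl
  · have hn : n % 4 = 1 := by omega
    rcases Nat.eq_zero_or_pos l with rfl | hl0
    · rcases Nat.eq_zero_or_pos g with rfl | hg1
      · rw [hg0 rfl]
        simpa using R_zero
      · exact R_stab hs hm hn0 (zero hm hn) 0 g (by omega)
    · have h3 := R_stab hs hm hn0 (eight hm hn) (l - 1) g (by omega)
      have e : (8 : ℤ) + 8 * ((l - 1 : ℕ) : ℤ) = ((0 : ℕ) : ℤ) + 8 * l := by omega
      rwa [e] at h3
  · exact R_stab hs hm hn0 (two hm (by omega)) l g (by omega)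
  · have hn1 : n ≠ 1 := by
      intro h
      have := hone h
      omega
    exact R_stab hs hm hn0 (four (by omega) hn1) l g (by omega)
  · exact R_stab hs hm hn0 (six hs hm h1 h2 (by omega)) l g (by omega)

/-- the classification, from the jobs -/
theorem classification (hs : SUM) (hm : SMALL) (h1 : SIXF) (h2 : SIXN) (hd : DIAG) (hmil : MIL)
    (hnec : NEC) (g n : ℕ) (s : ℤ) :
    R g n s ↔ Odd n ∧ |s| ≤ 2 * g ∧ s ≡ n - 1 [ZMOD 4] ∧ (n = 1 → 8 ∣ s) ∧ (g = 0 → n = 1) := by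
  constructor
  · rintro ⟨V, hV1, hV2, hV3⟩
    obtain ⟨k1, k2, k3, k4⟩ := hnec g V hV1
    rw [hV2, hV3] at k4
    rw [hV3] at k3
    have hodd : ((V + Vᵀ).det) % 2 = 1 := by
      rcases neg_one_pow_eq_or ℤ g with h | h <;> rw [h] at k1 <;> omega
    have hn2 : ((n : ℤ)) % 2 = 1 := by
      rw [← hV2]
      rcases abs_choice (V + Vᵀ).det with h | h <;> rw [h] <;> omega
    refine ⟨Nat.odd_iff.2 (by omega), k3, ?_, ?_, ?_⟩
    · unfold Int.ModEq
      omega
    · rintro rfl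
      have hsym : (V + Vᵀ).IsSymm := by
        unfold Matrix.IsSymm
        rw [transpose_add, transpose_transpose, add_comm]
      have hev : ∀ i, Even ((V + Vᵀ) i i) := fun i => ⟨V i i, by simp⟩
      obtain ⟨P, a, p1, p2, p3, p4⟩ := hd _ _ hsym hev k2
      rw [← hV3, p4]
      exact hmil _ _ P a hsym hev (by simpa using hV2) p1 p2 p3
    · rintro rfl
      have : ((V + Vᵀ).det) = 1 := by simp [Matrix.det_isEmpty]
      rw [this] at hV2
      simpa using hV2.symm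
  · rintro ⟨r1, r2, r3, r4, r5⟩
    have hodd := Nat.odd_iff.1 r1
    have hmod : (s - ((n : ℤ) - 1)) % 4 = 0 := by
      have := r3
      unfold Int.ModEq at this
      omega
    rcases le_total 0 s with h | h
    · exact suff hs hm h1 h2 h hodd (by rw [abs_of_nonneg h] at r2; exact r2) hmod r4 r5
    · have h3 : R g n (-s) := by
        refine suff hs hm h1 h2 (by omega) hodd (by rw [abs_of_nonpos h] at r2; exact r2) (by omega)
          (fun h => (Int.dvd_neg).2 (r4 h)) r5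
      simpa using hs.2.2 g n (-s) h3

end Pool.Agent.Y466.KS
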