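import Pool.Agent.Y466.KS.SixF

set_option autoImplicit false
set_option maxHeartbeats 4000000

namespace Pool.Agent.Y466.KS

open Matrix

lemma small1 (b : ℕ) (hb : 1 ≤ b) : R 1 (4 * b - 1) 2 := by
  have hA : (!![1, 1; 0, (b : ℤ)] : Matrix (Fin 2) (Fin 2) ℤ)
      + (!![1, 1; 0, (b : ℤ)] : Matrix (Fin 2) (Fin 2) ℤ)ᵀ = !![2, 1; 1, 2 * (b : ℤ)] := by
    ext i j
    fin_cases i <;> fin_cases j <;> simp <;> ring
  have hJ : (!![1, 1; 0, (b : ℤ)] : Matrix (Fin 2) (Fin 2) ℤ)
      - (!![1, 1; 0, (b : ℤ)] : Matrix (Fin 2) (Fin 2) ℤ)ᵀ = !![0, 1; -1, 0] := by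
    ext i j
    fin_cases i <;> fin_cases j <;> simp
  refine ⟨!![1, 1; 0, (b : ℤ)], ?_, ?_, ?_⟩
  · change (_ : Matrix (Fin 2) (Fin 2) ℤ).det = 1
    rw [hJ]
    simp [Matrix.det_fin_two]
  · change |(_ : Matrix (Fin 2) (Fin 2) ℤ).det| = _
    rw [hA]
    simp only [Matrix.det_fin_two_of]
    have h1 : (0 : ℤ) < 2 * (2 * b) - 1 * 1 := by omega
    rw [abs_of_pos h1]
    omega
  · change signature (_ : Matrix (Fin 2) (Fin 2) ℤ) = 2
    rw [hA, signature_posDef]
    · rfl
    · intro f hf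
      simp only [Fin.sum_univ_two]
      simp
      have hbR : (1 : ℝ) ≤ b := by exact_mod_cast hb
      by_contra hcon
      push Not at hcon
      have h1 : (2 * f 0 + f 1) ^ 2 + (4 * b - 1) * f 1 ^ 2 ≤ 0 := by nlinarith
      have e1 : 0 ≤ (2 * f 0 + f 1) ^ 2 := by positivity
      have e2 : 0 ≤ (4 * (b : ℝ) - 1) * f 1 ^ 2 := by
        have : (0 : ℝ) ≤ 4 * b - 1 := by linarith
        positivity
      have f1 : f 1 = 0 := by
        have h : (4 * (b : ℝ) - 1) * f 1 ^ 2 = 0 := by linarith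
        rcases mul_eq_zero.1 h with h | h
        · linarith
        · exact pow_eq_zero_iff (two_ne_zero) |>.1 h
      have f0 : f 0 = 0 := by
        have h : (2 * f 0 + f 1) ^ 2 = 0 := by linarith
        have h' := pow_eq_zero_iff (two_ne_zero) |>.1 h
        rw [f1] at h'
        linarith
      apply hf
      funext i
      fin_cases i <;> simp [f0, f1]

lemma small2 (b : ℕ) : R 1 (4 * b + 1) 0 := by
  have hA : (!![1, 1; 0, -(b : ℤ)] : Matrix (Fin 2) (Fin 2) ℤ)
      + (!![1, 1; 0, -(b : ℤ)] : Matrix (Fin 2) (Fin 2) ℤ)ᵀ = !![2, 1; 1, -2 * (b : ℤ)] := by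
    ext i j
    fin_cases i <;> fin_cases j <;> simp <;> ring
  have hJ : (!![1, 1; 0, -(b : ℤ)] : Matrix (Fin 2) (Fin 2) ℤ)
      - (!![1, 1; 0, -(b : ℤ)] : Matrix (Fin 2) (Fin 2) ℤ)ᵀ = !![0, 1; -1, 0] := by
    ext i j
    fin_cases i <;> fin_cases j <;> simp
  refine ⟨!![1, 1; 0, -(b : ℤ)], ?_, ?_, ?_⟩
  · change (_ : Matrix (Fin 2) (Fin 2) ℤ).det = 1
    rw [hJ]
    simp [Matrix.det_fin_two]
  · change |(_ : Matrix (Fin 2) (Fin 2) ℤ).det| = _
    rw [hA]
    simp only [Matrix.det_fin_two_of]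
    have h1 : 2 * (-2 * (b : ℤ)) - 1 * 1 < 0 := by omega
    rw [abs_of_neg h1]
    push_cast
    ring
  · change signature (_ : Matrix (Fin 2) (Fin 2) ℤ) = 0
    rw [hA]
    set Q := ((!![2, 1; 1, -2 * (b : ℤ)] : Matrix (Fin 2) (Fin 2) ℤ).map
      (Int.cast : ℤ → ℝ)).toQuadraticForm' with hQ
    have hval : ∀ x : Fin 2 → ℝ, Q x = 2 * x 0 ^ 2 + 2 * x 0 * x 1 - 2 * b * x 1 ^ 2 := by
      intro x
      rw [hQ, toQF_apply]
      simp only [Fin.sum_univ_two]
      simp
      ring
    have h1 : 1 ≤ sigPos Q := by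
      have hne : (![1, 0] : Fin 2 → ℝ) ≠ 0 := by
        intro h
        have := congrFun h 0
        simp at this
      have := le_sigPos_of_posDef Q (V := Submodule.span ℝ {![1, 0]}) (by
        intro x hx
        rw [QuadraticMap.restrict_apply]
        obtain ⟨c, hc⟩ := Submodule.mem_span_singleton.1 x.2
        have hc0 : c ≠ 0 := by
          rintro rfl
          apply hx
          ext1
          rw [← hc]
          simp
        rw [hval, ← hc]
        simp
        positivity)
      rwa [finrank_span_singleton hne] at this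
    have h2 : 1 ≤ sigNeg Q := by
      have hne : (![1, -2] : Fin 2 → ℝ) ≠ 0 := by
        intro h
        have := congrFun h 0
        simp at this
      have := le_sigNeg_of_negDef Q (V := Submodule.span ℝ {![1, -2]}) (by
        intro x hx
        rw [QuadraticMap.restrict_apply, _root_.neg_apply]
        obtain ⟨c, hc⟩ := Submodule.mem_span_singleton.1 x.2
        have hc0 : c ≠ 0 := by
          rintro rfl
          apply hx
          ext1
          rw [← hc]
          simp
        rw [hval, ← hc]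
        simp
        have : 0 < c ^ 2 := by positivity
        have hb : (0 : ℝ) ≤ b := by positivity
        nlinarith [mul_nonneg hb this.le])
      rwa [finrank_span_singleton hne] at this
    have h3 := QuadraticForm.sigPos_add_sigNeg_add_radical (Q := Q)
    rw [Module.finrank_fin_fun] at h3
    unfold signature
    rw [← hQ]
    omega

end Pool.Agent.Y466.KS
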